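import Pool.Agent.TH693.QQ.Main4
import Pool.Agent.TH693.QQ.QD1
import Pool.Agent.X1.NfaPat

set_option autoImplicit false

/-!
# Automata for the parity of the partition function in progressions (MP_ebc808_nt)

Let `m > 0` and `r` be such that `m` is a power of 2 or some value `p (m n + r)` is odd (by Radu 2012 this is
always so).  For every nonzero linear combination modulo 2 of the numbers `p (m (n + i) + r)`, `0 ≤ i ≤ L`, a
nondeterministic automaton which accepts its first `N` values and no other word of length `N` has at least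
`N exp (- B √ log N)` states, and an automaton with at most `N ^ (1 - δ)` states which accepts a word that
differs from it in at most `a log N` places accepts at least `exp (a (log N) ^ 2)` words of length `N`.

The proof combines the starting theorem on linear patterns in progressions (intervals of linear length), which
bounds the lengths of periodic stretches, with a theorem on automata (`X1.NfaConst`).
-/

namespace Pool.Agent.Results.MP_ebc808_nt.AutomataForParities

open Pool.Agent.X1.NfaPat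

/-- the number of partitions of `n` -/
def p (n : ℕ) : ℕ := Fintype.card (Nat.Partition n)

/-- the linear combination `∑ c i * p (m * (n + i) + r)` modulo 2 -/
def comb (m r : ℕ) {L : ℕ} (c : Fin (L + 1) → ZMod 2) (n : ℕ) : ZMod 2 :=
  ∑ i : Fin (L + 1), c i * (p (m * (n + i) + r) : ZMod 2)

/-- the word of the first `N` values of `z` -/
def word (z : ℕ → ZMod 2) (N : ℕ) : List (ZMod 2) := (List.range N).map z

/-- automata which accept only the first `N` values of `z` have at least `N exp (- B √ log N)` states -/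
def ManyStates (B : ℝ) (z : ℕ → ZMod 2) : Prop :=
  ∀ (σ : Type) [Fintype σ] (M : NFA (ZMod 2) σ) (N : ℕ), 2 ≤ N → word z N ∈ M.accepts →
    (∀ w ∈ M.accepts, w.length = N → w = word z N) →
    (N : ℝ) * Real.exp (-B * √(Real.log N)) ≤ Fintype.card σ

/-- automata with at most `N ^ (1 - δ)` states which accept a word close to the first `N` values of `z` accept
at least `exp (a (log N) ^ 2)` words of length `N` -/
def ManyWords (δ a : ℝ) (N₁ : ℕ) (z : ℕ → ZMod 2) : Prop :=
  ∀ (σ : Type) [Fintype σ] (M : NFA (ZMod 2) σ) (N : ℕ), N₁ ≤ N →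
    (Fintype.card σ : ℝ) ≤ (N : ℝ) ^ (1 - δ) → ∀ d : ℕ → ZMod 2,
    (((Finset.range N).filter fun n => d n ≠ z n).card : ℝ) ≤ a * Real.log N → word d N ∈ M.accepts →
    Real.exp (a * Real.log N ^ 2) ≤ ({w : List (ZMod 2) | w ∈ M.accepts ∧ w.length = N}.ncard : ℝ)

lemma pat_prog (m r : ℕ) (hm : 0 < m) (h : (∃ k, m = 2 ^ k) ∨ ∃ n, Odd (p (m * n + r))) :
    ∃ C : ℕ, Pat (fun (_ : Unit) (n : ℕ) => (p (m * n + r) : ZMod 2)) C := by
  have h' : (∃ k, m = 2 ^ k) ∨ ∃ n, Odd (Pool.Agent.H413R3.Part.mp 1 (m * n + r)) := by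
    rcases h with h | ⟨n, hn⟩
    · exact Or.inl h
    · exact Or.inr ⟨n, by rw [Pool.Agent.H413R3.Part.mp_one]; exact hn⟩
  obtain ⟨C, hC⟩ := Pool.Agent.TH693.QQ.final_mp Pool.Agent.TH693.QQ.D1.qd1 odd_one m r hm h'
  refine ⟨C, fun L c hc κ A => ?_⟩
  have hc' : c () ≠ 0 := by
    intro h
    apply hc
    funext u
    rw [show u = () from rfl, h]
    rfl
  obtain ⟨n, h1, h2, h3⟩ := hC L (c ()) hc' κ A
  refine ⟨n, h1, h2, ?_⟩
  rw [← h3, Fintype.sum_unique]
  exact Finset.sum_congr rfl fun i _ => by rw [Pool.Agent.H413R3.Part.mp_one]; rfl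

lemma comb_eq (m r : ℕ) {L : ℕ} (c : Fin (L + 1) → ZMod 2) :
    comb m r c = fun n => ∑ _u : Unit, ∑ i : Fin (L + 1), c i * (p (m * (n + i) + r) : ZMod 2) := by
  funext n
  exact (Fintype.sum_unique (fun _ : Unit =>
    ∑ i : Fin (L + 1), c i * (p (m * (n + i) + r) : ZMod 2))).symm

theorem result (m r : ℕ) (hm : 0 < m) (h : (∃ k, m = 2 ^ k) ∨ ∃ n, Odd (p (m * n + r))) (L : ℕ) :
    (∃ B : ℝ, 0 < B ∧ ∀ c : Fin (L + 1) → ZMod 2, c ≠ 0 → ManyStates B (comb m r c)) ∧
    (∀ δ : ℝ, 0 < δ → ∃ a : ℝ, 0 < a ∧ ∃ N₁ : ℕ,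
      ∀ c : Fin (L + 1) → ZMod 2, c ≠ 0 → ManyWords δ a N₁ (comb m r c)) := by
  obtain ⟨C, hC⟩ := pat_prog m r hm h
  constructor
  · obtain ⟨B, hB, h⟩ := pat_states C L
    refine ⟨B, hB, fun c hc => ?_⟩
    rw [comb_eq]
    exact h Unit _ hC (fun _ => c) (fun h0 => hc (congrFun h0 ()))
  · intro δ hδ
    obtain ⟨a, ha, N₁, h⟩ := pat_words C L hδ
    refine ⟨a, ha, N₁, fun c hc => ?_⟩
    rw [comb_eq]
    exact h Unit _ hC (fun _ => c) (fun h0 => hc (congrFun h0 ()))

end Pool.Agent.Results.MP_ebc808_nt.AutomataForParities
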