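import Pool.Agent.X20.Tr.Use

/-!
# The parities of the partition numbers around the integers `⌊α n ^ c⌋`

From Mathlib: `dimH E`: the Hausdorff dimension; `⌊x⌋₊`: the integer part; `Finset.Icc 1 N` and `Finset.Ioc 0 N`: the
integers from `1` to `N`; `Finset.range N`: the integers from `0` to `N - 1`; `Nat.Partition n`: the type of the
partitions of `n`; `Nat.testBit w j`: the binary digit of `w` at `2 ^ j` is one.
-/

set_option autoImplicit false

namespace Pool.Agent.Results.MP_ebc808_nt.BlocksAlongDilatedPowers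

open Finset Filter
open Pool.Agent.X20.Tr
open Pool.Agent.Y854.PS (ms xs)

/-- The parities of the partition numbers `p(A m + B), p(A m + B + 1), …, p(A m + B + k - 1)` are given by the `k` last
binary digits of `w`: `p(A m + B + j)` is odd if and only if the digit of `w` at `2 ^ j` is one. -/
def Block (A B k w m : ℕ) : Prop :=
  ∀ j : ℕ, j < k → (Odd (Fintype.card (Nat.Partition (A * m + B + j))) ↔ Nat.testBit w j = true)

open Classical in
/-- The integers `m` with the property `P` have the density `ρ`. -/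
def HasDensity (P : ℕ → Prop) (ρ : ℝ) : Prop :=
  Tendsto (fun N : ℕ => (((range N).filter P).card : ℝ) / (N : ℝ)) atTop (nhds ρ)

open Classical in
/-- The integers `n ≥ 1` for which `⌊α n ^ c⌋` has the property `P` have the density `ρ`. -/
def HasDensityAlong (α c : ℝ) (P : ℕ → Prop) (ρ : ℝ) : Prop :=
  Tendsto (fun N : ℕ => (((Icc 1 N).filter (fun n : ℕ => P ⌊α * (n : ℝ) ^ c⌋₊)).card : ℝ) / (N : ℝ)) atTop (nhds ρ)

open Classical in
/-- For every real `c > 1` there are `κ > 0` and a set `E` of real numbers of Hausdorff dimension at most `1 - κ`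
such that for every real `α > 0` outside `E`:

* for ALL blocks of parities, all progressions `A m + B` and every real `ρ`: the block occurs in the sequence of the
  parities of the partition numbers at the positions `A m + B`, `m = 0, 1, 2, …`, with the density `ρ` if and only if
  it occurs at the positions `A m + B`, `m = ⌊α n ^ c⌋`, `n = 1, 2, …`, with the density `ρ`. In particular (`k = 1`,
  `ρ = 1 / 2`) Q1 is equivalent to the same question for the numbers `p(⌊α n ^ c⌋)`;
* (power saving) for all `A`, `B`, all large `N` and ALL blocks of length `k` with `2 ^ k ≤ N ^ κ` the number of the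
  `n ≤ N` for which the block occurs at the position `A ⌊α n ^ c⌋ + B` is, up to `N ^ (1 - κ)`, the number of all
  `m ≤ α N ^ c` for which it occurs at the position `A m + B`, counted with the weights
  `(1 / c) α ^ (-1 / c) m ^ (1 / c - 1)` (the density of the sequence at `m`). -/
theorem result (c : ℝ) (hc : 1 < c) : ∃ κ : ℝ, 0 < κ ∧ κ < 1 ∧ ∃ E : Set ℝ, dimH E ≤ ENNReal.ofReal (1 - κ) ∧
    ∀ α : ℝ, 0 < α → α ∉ E →
      (∀ (A B k w : ℕ) (ρ : ℝ), HasDensity (Block A B k w) ρ ↔ HasDensityAlong α c (Block A B k w) ρ) ∧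
      (∀ ρ : ℝ, HasDensity (fun m => Even (Fintype.card (Nat.Partition m))) ρ ↔
        HasDensityAlong α c (fun m => Even (Fintype.card (Nat.Partition m))) ρ) ∧
      (∀ A B : ℕ, ∃ N₀ : ℕ, ∀ N : ℕ, N₀ ≤ N → ∀ k w : ℕ, (2 : ℝ) ^ k ≤ (N : ℝ) ^ κ → w < 2 ^ k →
        |(((Icc 1 N).filter (fun n : ℕ => Block A B k w ⌊α * (n : ℝ) ^ c⌋₊)).card : ℝ) -
          ∑ m ∈ (Ioc 0 ⌊α * (N : ℝ) ^ c⌋₊).filter (fun m : ℕ => Block A B k w m),
            1 / c * α ^ (-(1 / c)) * (m : ℝ) ^ (1 / c - 1)| ≤ (N : ℝ) ^ (1 - κ)) := by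
  obtain ⟨κ, hκ0, hκ1, H⟩ := use c hc
  obtain ⟨E, hE, h⟩ := H (fun i s => {m | Block (Nat.unpair i).1 (Nat.unpair i).2 (Nat.unpair (Nat.unpair s).2).1
    (Nat.unpair (Nat.unpair s).2).2 m}) Unit (fun _ => {m | Even (Fintype.card (Nat.Partition m))})
  refine ⟨κ / 8, by positivity, by linarith, E, hE.trans (ENNReal.ofReal_le_ofReal (by linarith)),
    fun α hα hαE => ?_⟩
  obtain ⟨h1, h2, h0⟩ := h α hα hαE
  have key : ∀ (P : ℕ → Prop), Cmp c α κ (ind {m | P m}) → ∀ ρ : ℝ, HasDensity P ρ ↔ HasDensityAlong α c P ρ := by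
    intro P hP ρ
    have h4 := nat_iff hc hα hκ0 hκ1 hP ρ
    unfold HasDensity HasDensityAlong
    rw [range_iff, h4]
    have e : (fun N : ℕ => (hit c α {m | P m} N : ℝ) / N) =
        fun N : ℕ => (((Icc 1 N).filter (fun n : ℕ => P ⌊α * (n : ℝ) ^ c⌋₊)).card : ℝ) / (N : ℝ) := by
      funext N
      rw [hit_form]
    rw [e]
  refine ⟨fun A B k w ρ => ?_, key _ (h0 ()), fun A B => ?_⟩
  · have h3 := h2 (Nat.pair A B) (Nat.pair 0 (Nat.pair k w))
    simp only [Nat.unpair_pair] at h3
    exact key _ h3 ρ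
  · obtain ⟨N₁, _, h4⟩ := h1 (Nat.pair A B)
    obtain ⟨N₂, hN₂, h5⟩ := triple_le hκ0
    refine ⟨max N₁ N₂, fun N hN k w hk hw => ?_⟩
    have hN1 : (1 : ℝ) ≤ N := by exact_mod_cast hN₂.trans ((le_max_right _ _).trans hN)
    have hk2 : (k : ℝ) ≤ (2 : ℝ) ^ k := by exact_mod_cast Nat.lt_two_pow_self.le
    have hw2 : (w : ℝ) ≤ (2 : ℝ) ^ k := by exact_mod_cast hw.le
    have h6 := h4 N ((le_max_left _ _).trans hN) (Nat.pair 0 (Nat.pair k w))
      (h5 N ((le_max_right _ _).trans hN) 0 k w (by rw [Nat.cast_zero]; positivity) (hk2.trans hk) (hw2.trans hk))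
    simp only [Nat.unpair_pair] at h6
    have h11 : (N : ℝ) ^ (1 - κ) ≤ (N : ℝ) ^ (1 - κ / 8) := Real.rpow_le_rpow_of_exponent_le hN1 (by linarith)
    rw [hit_form, wsum_form]
    exact h6.trans h11

end Pool.Agent.Results.MP_ebc808_nt.BlocksAlongDilatedPowers
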