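import Mathlib
import Pool.Agent.X3.LinSeries
import Pool.Agent.H397R2.PP.A

/-!
# Linear complexity of the partition function modulo 2, and over every field

The first `N + 1` values of the partition function modulo `2` (more generally, their images in any
field) satisfy no linear recurrence of an order less than `N / (100 log N log log N)`.
-/

set_option autoImplicit false

namespace Pool.Agent.Results.MP_ebc808_nt.LinearComplexity

/-- The number of partitions of `n`. -/
def p (n : ℕ) : ℕ := Fintype.card (Nat.Partition n)

/-- The word `x M, …, x N` satisfies a linear recurrence of order `L` with coefficients in `F`. -/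
def Recurrent {F : Type} [Field F] (x : ℕ → F) (M N L : ℕ) : Prop :=
  ∃ c : Fin L → F, ∀ n, M ≤ n → n + L ≤ N → x (n + L) = ∑ i : Fin L, c i * x (n + i)

theorem shift {F : Type} [Field F] {x : ℕ → F} {M N L : ℕ} (h : Recurrent x M N L) :
    Pool.Agent.X3.LinSeries.Rec0 x N (M + L) := by
  obtain ⟨c, hc⟩ := h
  refine ⟨Fin.append (fun _ : Fin M => 0) c, fun n hn => ?_⟩
  rw [Fin.sum_univ_add]
  simp only [Fin.append_left, zero_mul, Finset.sum_const_zero, Fin.append_right, zero_add,
    Fin.val_natAdd]
  have h1 := hc (n + M) (by omega) (by omega)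
  have e : n + (M + L) = n + M + L := by ring
  rw [e, h1]
  refine Finset.sum_congr rfl fun i _ => ?_
  congr 2
  ring

/-- Let `F` be a field (for instance with two elements) and `N ≥ 16`. If the images of
`p(M), p(M + 1), …, p(N)` in `F` satisfy a linear recurrence of order `L` over `F`, then
`N / (100 log N log log N) ≤ M + L`; if moreover `2 (M + L) ≤ N`, then
`2 ^ π(N / (M + L + 1)) ≤ 4 (M + L)`, where `π` counts the primes. In particular the linear
complexity of the word `p(0), …, p(N)` modulo `2` is at least `N / (100 log N log log N)`. -/
theorem result (F : Type) [Field F] (M N L : ℕ) (hN : 16 ≤ N)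
    (h : Recurrent (fun n => (p n : F)) M N L) :
    (N : ℝ) / (100 * Real.log N * Real.log (Real.log N)) ≤ M + L ∧
    (2 * (M + L) ≤ N → 2 ^ Nat.primeCounting (N / (M + L + 1)) ≤ 4 * (M + L)) := by
  have h1 := Pool.Agent.X3.LinSeries.recip_main (F := F)
    (Pool.Agent.H397R2.PP.mk_card_mul_pentagonalSeries F) (N := N) (L := M + L) hN (by
      have := shift h
      simpa [PowerSeries.coeff_mk, p] using this)
  refine ⟨?_, h1.1⟩
  have := h1.2
  push_cast at this
  exact this

end Pool.Agent.Results.MP_ebc808_nt.LinearComplexity
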