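import Mathlib
import Pool.Agent.X149.PP.Lg.Main
import Pool.Agent.X149.PP.Lg.Exist

set_option autoImplicit false

namespace Pool.Agent.Results.MP_ebc808_nt.PolylogDeletedParts

open MeasureTheory ProbabilityTheory Filter

/-- `p D n`: the number of partitions of `n` with no part in `D`. -/
noncomputable def p (D : Set ℕ) (n : ℕ) : ℕ :=
  Nat.card {π : n.Partition // ∀ i ∈ π.parts, i ∉ D}

/-- All patterns of parities of `p D` have the expected frequency along `ν`. -/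
def Normal (D : Set ℕ) (ν : ℕ → ℕ) : Prop :=
  ∀ H O : Finset ℕ, ∃ C : ℝ, ∀ K : ℕ,
    |(Nat.card {k : ℕ // k < K ∧ ∀ h ∈ H, (Odd (p D (ν k + h)) ↔ h ∈ O)} : ℝ) -
      (K : ℝ) / 2 ^ H.card| ≤ C * ((K : ℝ) / Real.sqrt ((Nat.log 2 K : ℝ) + 1))

theorem random (Ω : Type) (_ : MeasurableSpace Ω) (P : Measure Ω) (_ : IsProbabilityMeasure P)
    (D : Ω → Set ℕ) (hm : ∀ m, MeasurableSet {ω | m ∈ D ω})
    (hi : iIndepSet (fun m => {ω | m ∈ D ω}) P)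
    (hh : ∀ m : ℕ, 1 ≤ m → P.real {ω | m ∈ D ω} ≤ 1 / 2)
    (hp : ∀ m : ℕ, 2 ^ 64 ≤ m → (Nat.log 2 m : ℝ) ^ 8 / m ≤ P.real {ω | m ∈ D ω})
    (ν : ℕ → ℕ) (hν : StrictMono ν) :
    ∀ᵐ ω ∂P, ∀ D' : Set ℕ, (symmDiff D' (D ω)).Finite → Normal D' ν := by
  filter_upwards [Pool.Agent.X149.PP.Lg.mainL ⟨hm, hi, hh, hp⟩ hν] with ω hω
  intro D' hD' H O
  obtain ⟨C, hC⟩ := hω D' hD' 1 odd_one H O
  refine ⟨C, fun K => ?_⟩
  have h1 := hC K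
  simp only [Pool.Agent.X149.PP.pt_one, Int.odd_coe_nat] at h1
  exact h1

theorem result :
    (∀ (Ω : Type) (_ : MeasurableSpace Ω) (P : Measure Ω) (_ : IsProbabilityMeasure P)
      (D : Ω → Set ℕ), (∀ m, MeasurableSet {ω | m ∈ D ω}) →
      iIndepSet (fun m => {ω | m ∈ D ω}) P →
      (∀ m : ℕ, 1 ≤ m → P.real {ω | m ∈ D ω} ≤ 1 / 2) →
      (∀ m : ℕ, 2 ^ 64 ≤ m → (Nat.log 2 m : ℝ) ^ 8 / m ≤ P.real {ω | m ∈ D ω}) →
      ∀ ν : ℕ → ℕ, StrictMono ν →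
      ∀ᵐ ω ∂P, ∀ D' : Set ℕ, (symmDiff D' (D ω)).Finite → Normal D' ν) ∧
    (∀ ν : ℕ → ℕ → ℕ, (∀ i, StrictMono (ν i)) → ∃ D : Set ℕ, (∃ C : ℝ, ∀ N : ℕ,
        (Nat.card {m : ℕ // m ∈ D ∧ 1 ≤ m ∧ m ≤ N} : ℝ) ≤ C * ((Nat.log 2 N : ℝ) + 1) ^ 10) ∧
        ∀ D' : Set ℕ, (symmDiff D' D).Finite → ∀ i, Normal D' (ν i)) := by
  constructor
  · intro Ω _ P _ D hm hi hh hp ν hν
    exact random Ω _ P inferInstance D hm hi hh hp ν hν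
  · intro ν hν
    obtain ⟨D, hD, hC⟩ := Pool.Agent.X149.PP.Lg.exists_log
      (Q := fun D => ∀ D' : Set ℕ, (symmDiff D' D).Finite → ∀ i, Normal D' (ν i))
      (fun Ω mΩ P hP D hDm hDi hδ hδ' => by
        have h1 : ∀ᵐ ω ∂P, ∀ i, ∀ D' : Set ℕ, (symmDiff D' (D ω)).Finite →
            Normal D' (ν i) := by
          rw [ae_all_iff]
          exact fun i => random Ω mΩ P hP D hDm hDi hδ hδ' (ν i) (hν i)
        filter_upwards [h1] with ω hω D' hD' i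
        exact hω i D' hD')
    exact ⟨D, hC, hD⟩

end Pool.Agent.Results.MP_ebc808_nt.PolylogDeletedParts
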